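import Mathlib
import Pool.Agent.H46R3.DG.Stmts

/-!
# Low digits of powers of a prime: exponential sums with small modulus
-/

set_option autoImplicit false

namespace Pool.Agent.H783R3.DG

open Finset
open Pool.Agent.H46R3.DG
open Pool.Agent.Helper602.MK (ee)
open Pool.Agent.Helper602.MK.N_J5b (ee_add ee_zero norm_ee ee_int ee_nat_mul ee_eq_one_iff)

theorem pow_one_add (q k u m : ℕ) (hk : 2 ≤ k) :
    ∃ w : ℕ, (1 + q ^ (k - 1) * u) ^ m = 1 + m * (q ^ (k - 1) * u) + q ^ k * w := by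
  induction m with
  | zero => exact ⟨0, by simp⟩
  | succ m ih =>
    obtain ⟨w, hw⟩ := ih
    refine ⟨m * (q ^ (k - 2) * u ^ 2) + w * (1 + q ^ (k - 1) * u), ?_⟩
    have h1 : q ^ (k - 1) * q ^ (k - 1) = q ^ k * q ^ (k - 2) := by
      rw [← pow_add, ← pow_add]
      congr 1
      omega
    rw [pow_succ, hw]
    have h2 : (1 + m * (q ^ (k - 1) * u) + q ^ k * w) * (1 + q ^ (k - 1) * u) =
        1 + (m + 1) * (q ^ (k - 1) * u) + m * (q ^ (k - 1) * q ^ (k - 1)) * u ^ 2 +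
          q ^ k * w * (1 + q ^ (k - 1) * u) := by ring
    rw [h2, h1]
    ring

theorem ee_nat (n : ℕ) : ee (n : ℝ) = 1 := by
  have := ee_int (n : ℤ)
  rwa [Int.cast_natCast] at this

theorem sum_range_mul_eq (P q : ℕ) (g : ℕ → ℂ) :
    ∑ i ∈ range (P * q), g i = ∑ m ∈ range q, ∑ r ∈ range P, g (P * m + r) := by
  induction q with
  | zero => simp
  | succ q ih => rw [Nat.mul_succ, Finset.sum_range_add, ih, Finset.sum_range_succ]

theorem taskC : TaskC := by
  intro p q T s hD k a N hsk hqa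
  obtain ⟨u, hqu, hu⟩ := hD.lte (k - s - 1)
  have hk2 : 2 ≤ k := by
    have := hD.hs
    omega
  have hq0 : 0 < q := hD.hq.pos
  have hqR : (q : ℝ) ≠ 0 := by exact_mod_cast hq0.ne'
  have he : k - s - 1 + s = k - 1 := by omega
  rw [he] at hu
  obtain ⟨P, hP⟩ : ∃ P, P = T * q ^ (k - s - 1) := ⟨_, rfl⟩
  rw [← hP] at hu
  obtain ⟨E, hE⟩ : ∃ E : ℕ → ℂ, E = fun n => ee ((a : ℝ) * (p : ℝ) ^ n / (q : ℝ) ^ k) := ⟨_, rfl⟩
  obtain ⟨Z, hZ⟩ : ∃ Z : ℕ → ℂ, Z = fun n => ee (((a * p ^ n * u : ℕ) : ℝ) / (q : ℝ)) :=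
    ⟨_, rfl⟩
  have hqk : (q : ℝ) ^ k = (q : ℝ) ^ (k - 1) * q := by
    rw [← pow_succ]
    congr 1
    omega
  -- the step by `P`
  have key : ∀ n m : ℕ, E (n + P * m) = E n * Z n ^ m := by
    intro n m
    obtain ⟨w, hw⟩ := pow_one_add q k u m hk2
    have h1 : p ^ (n + P * m) = p ^ n * (1 + m * (q ^ (k - 1) * u) + q ^ k * w) := by
      rw [pow_add, pow_mul, hu, hw]
    have h2 : (p : ℝ) ^ (n + P * m) =
        (p : ℝ) ^ n * (1 + m * ((q : ℝ) ^ (k - 1) * u) + (q : ℝ) ^ k * w) := by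
      exact_mod_cast h1
    have h3 : (a : ℝ) * (p : ℝ) ^ (n + P * m) / (q : ℝ) ^ k =
        (a : ℝ) * (p : ℝ) ^ n / (q : ℝ) ^ k + (m * (((a * p ^ n * u : ℕ) : ℝ) / (q : ℝ)) +
          ((a * p ^ n * w : ℕ) : ℝ)) := by
      rw [h2]
      push_cast
      have h4 : (q : ℝ) ^ (k - 1) ≠ 0 := pow_ne_zero _ hqR
      rw [hqk]
      field_simp
      ring
    rw [hE, hZ]
    simp only []
    rw [h3, ee_add, ee_add, ee_nat_mul, ee_nat, mul_one]
  have hZq : ∀ n, Z n ^ q = 1 := by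
    intro n
    rw [hZ]
    simp only []
    rw [← ee_nat_mul, mul_div_cancel₀ _ hqR, ee_nat]
  have hZ1 : ∀ n, Z n ≠ 1 := by
    intro n h
    rw [hZ] at h
    simp only [] at h
    rw [ee_eq_one_iff] at h
    obtain ⟨t, ht⟩ := h
    rw [div_eq_iff hqR] at ht
    have h1 : ((a * p ^ n * u : ℕ) : ℤ) = t * q := by exact_mod_cast ht
    have h2 : (q : ℤ) ∣ ((a * p ^ n * u : ℕ) : ℤ) := ⟨t, by rw [h1]; ring⟩
    have h3 : q ∣ a * p ^ n * u := by exact_mod_cast h2
    rcases (Nat.Prime.dvd_mul hD.hq).mp h3 with h | h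
    · rcases (Nat.Prime.dvd_mul hD.hq).mp h with h | h
      · exact hqa h
      · have h5 := hD.hq.dvd_of_dvd_pow h
        exact hD.hpq ((Nat.prime_dvd_prime_iff_eq hD.hq hD.hp).mp h5).symm
    · exact hqu h
  have hgeom : ∀ n, ∑ m ∈ range q, Z n ^ m = 0 := by
    intro n
    have h1 := mul_geom_sum (Z n) q
    rw [hZq, sub_self] at h1
    rcases mul_eq_zero.mp h1 with h | h
    · exact absurd (sub_eq_zero.mp h) (hZ1 n)
    · exact h
  have hblock : ∀ b : ℕ, ∑ i ∈ range (P * q), E (b + i) = 0 := by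
    intro b
    rw [sum_range_mul_eq P q (fun i => E (b + i)), Finset.sum_comm]
    refine Finset.sum_eq_zero (fun r _ => ?_)
    have h1 : ∀ m ∈ range q, E (b + (P * m + r)) = E (b + r) * Z (b + r) ^ m := by
      intro m _
      rw [← key]
      congr 1
      ring
    rw [Finset.sum_congr rfl h1, ← Finset.mul_sum, hgeom, mul_zero]
  have hnorm : ∀ n, ‖E n‖ = 1 := by
    intro n
    rw [hE]
    exact norm_ee _
  have hPq : 0 < P * q := by
    rw [hP]
    have := hD.hT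
    positivity
  have main : ∀ N : ℕ, ‖∑ n ∈ range N, E n‖ ≤ ((P * q : ℕ) : ℝ) := by
    intro N
    induction N using Nat.strong_induction_on with
    | _ N ih =>
      by_cases hN : N < P * q
      · calc ‖∑ n ∈ range N, E n‖ ≤ ∑ n ∈ range N, ‖E n‖ := norm_sum_le _ _
          _ = (N : ℝ) := by simp [hnorm]
          _ ≤ ((P * q : ℕ) : ℝ) := by exact_mod_cast hN.le
      · have h1 : N = (N - P * q) + P * q := by omega
        rw [h1, Finset.sum_range_add, hblock, add_zero]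
        exact ih (N - P * q) (by omega)
  have h1 := main N
  rw [hE] at h1
  refine le_trans h1 ?_
  have h2 : P * q ≤ T * q ^ k := by
    rw [hP, mul_assoc, ← pow_succ]
    exact Nat.mul_le_mul_left _ (Nat.pow_le_pow_right hq0 (by omega))
  exact_mod_cast h2

end Pool.Agent.H783R3.DG
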